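import Pool.Agent.Run7.h878.RB.Defs

/-!
Membership in NP of the directed red-blue cut problem.
-/

namespace Pool.Agent.Run7.h878.RB

open Pool.Agent.H38.NP

/-- the verifier: the certificate is the list of the elements of the set -/
def ver (I : Inst) (w : List ℕ) : Bool :=
  ((List.range I.1).any fun v => decide (v ∈ w)) &&
  (((List.range I.1).any fun v => !(decide (v ∈ w))) &&
  (decide (I.2.1.countP (fun e => (decide (e.1 ∈ w) && decide (e.1 < I.1)) &&
    !(decide (e.2 ∈ w) && decide (e.2 < I.1))) ≤ I.2.2.2.1) &&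
  decide (I.2.2.1.countP (fun e => (decide (e.1 ∈ w) && decide (e.1 < I.1)) &&
    !(decide (e.2 ∈ w) && decide (e.2 < I.1))) ≤ I.2.2.2.2)))

theorem pt_ver : PT fun p : Inst × List ℕ => ver p.1 p.2 := by
  unfold ver
  fun_prop

theorem ver_iff (I : Inst) (w : List ℕ) : ver I w = true ↔
    (w.toFinset ∩ Finset.range I.1 ≠ ∅) ∧ w.toFinset ∩ Finset.range I.1 ≠ Finset.range I.1 ∧
    (outArcs (w.toFinset ∩ Finset.range I.1) I.2.1).length ≤ I.2.2.2.1 ∧
    (outArcs (w.toFinset ∩ Finset.range I.1) I.2.2.1).length ≤ I.2.2.2.2 := by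
  have h : ∀ A : List (ℕ × ℕ), (outArcs (w.toFinset ∩ Finset.range I.1) A).length =
      A.countP (fun e => (decide (e.1 ∈ w) && decide (e.1 < I.1)) &&
        !(decide (e.2 ∈ w) && decide (e.2 < I.1))) := by
    intro A
    rw [outArcs, List.countP_eq_length_filter]
    congr 2
    funext e
    rw [Bool.eq_iff_iff]
    simp
  rw [h, h]
  unfold ver
  simp only [Bool.and_eq_true, List.any_eq_true, List.mem_range, decide_eq_true_eq,
    Bool.not_eq_true', decide_eq_false_iff_not]
  refine and_congr ?_ (and_congr ?_ Iff.rfl)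
  · rw [← Finset.nonempty_iff_ne_empty]
    constructor
    · rintro ⟨v, hv, hw⟩
      exact ⟨v, by simp [hv, hw]⟩
    · rintro ⟨v, hv⟩
      simp only [Finset.mem_inter, List.mem_toFinset, Finset.mem_range] at hv
      exact ⟨v, hv.2, hv.1⟩
  · constructor
    · rintro ⟨v, hv, hw⟩ he
      have : v ∈ w.toFinset ∩ Finset.range I.1 := by rw [he]; exact Finset.mem_range.2 hv
      simp only [Finset.mem_inter, List.mem_toFinset] at this
      exact hw this.1
    · intro hne
      by_contra hc
      push Not at hc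
      refine hne ?_
      ext v
      simp only [Finset.mem_inter, List.mem_toFinset, Finset.mem_range]
      exact ⟨fun h => h.2, fun h => ⟨hc v h, h⟩⟩

theorem sz_nodup_le (n : ℕ) : ∀ w : List ℕ, w.length ≤ n → (∀ v ∈ w, v < n) →
    sz w ≤ n * (2 * n + 1) := by
  suffices h : ∀ w : List ℕ, (∀ v ∈ w, v < n) → sz w ≤ w.length * (2 * n + 1) by
    intro w h1 h2
    exact (h w h2).trans (Nat.mul_le_mul_right _ h1)
  intro w
  induction w with
  | nil => intro _; simp
  | cons a l ih =>
    intro h
    have h1 := ih fun v hv => h v (List.mem_cons_of_mem _ hv)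
    have h2 := h a List.mem_cons_self
    have h3 : (a :: l).length * (2 * n + 1) = l.length * (2 * n + 1) + (2 * n + 1) := by
      rw [List.length_cons]; ring
    rw [sz_cons, sz_nat, h3]
    omega

theorem inNP_of {C : Inst → Prop} (c : Inst → Bool) (hc : PT c) (h : ∀ I, C I ↔ c I = true) :
    InNP (lang fun I : Inst => C I ∧ HasCut I) := by
  refine inNP_lang (β := List ℕ) (fun I w => c I && ver I w)
    (PT.and (hc.comp (g := fun p : Inst × List ℕ => p.1) (by fun_prop)) pt_ver)
    (B := fun I => I.1 * (2 * I.1 + 1)) ?_ ?_ ?_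
  · have h1 : PB fun I : Inst => I.1 := PT.nat_pb (by fun_prop)
    exact h1.mul (((PB.const 2).mul h1).add (PB.const 1))
  · rintro I ⟨hI, X, hX, h1, h2, h3, h4⟩
    refine ⟨X.toList, ?_, ?_⟩
    · refine sz_nodup_le I.1 _ ?_ fun v hv => ?_
      · rw [Finset.length_toList]
        simpa using Finset.card_le_card hX
      · exact Finset.mem_range.1 (hX (Finset.mem_toList.1 hv))
    · rw [Bool.and_eq_true, ver_iff]
      have e : X.toList.toFinset ∩ Finset.range I.1 = X := by
        rw [Finset.toList_toFinset]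
        exact Finset.inter_eq_left.2 hX
      rw [e]
      exact ⟨(h I).1 hI, h1, h2, h3, h4⟩
  · intro I w hw
    rw [Bool.and_eq_true, ver_iff] at hw
    exact ⟨(h I).2 hw.1, w.toFinset ∩ Finset.range I.1, Finset.inter_subset_right, hw.2⟩

theorem inNP_digraph : InNP (lang fun I : Inst => IsDigraph I ∧ HasCut I) := by
  refine inNP_of (fun I => (I.2.1 ++ I.2.2.1).all fun e => decide (e.1 < I.1) && decide (e.2 < I.1))
    (by fun_prop) fun I => ?_
  simp only [IsDigraph, List.all_eq_true, Bool.and_eq_true, decide_eq_true_eq]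

theorem inNP_simple : InNP (lang fun I : Inst => IsSimple I ∧ HasCut I) := by
  refine inNP_of (fun I => ((I.2.1 ++ I.2.2.1).all fun e => decide (e.1 < I.1) &&
    (decide (e.2 < I.1) && decide (e.1 ≠ e.2))) && decide (I.2.1 ++ I.2.2.1).Nodup)
    (by fun_prop) fun I => ?_
  simp only [IsSimple, List.all_eq_true, Bool.and_eq_true, decide_eq_true_eq]

end Pool.Agent.Run7.h878.RB
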