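import Pool.Agent.Run7.h878.RB.Defs

/-!
Blowing up the nodes of a digraph with some forced implications to a simple digraph.
-/

namespace Pool.Agent.Run7.h878.RB

open Pool.Agent.H38.NP

theorem nodup_edgesOf (N : ℕ) (adj : ℕ → ℕ → Bool) : (edgesOf N adj).Nodup := by
  unfold edgesOf
  rw [List.nodup_flatMap]
  refine ⟨fun u _ => ?_, ?_⟩
  · exact (List.nodup_range.filter _).map fun a b h => (Prod.mk.inj h).2
  · refine List.nodup_range.pairwise_of_forall_ne fun u _ v _ huv => ?_
    intro e he he'
    simp only [List.mem_map, List.mem_filter] at he he'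
    obtain ⟨a, -, rfl⟩ := he
    obtain ⟨b, -, hb⟩ := he'
    exact huv (Prod.mk.inj hb).1.symm

theorem len_out (X : Finset ℕ) (N : ℕ) (adj : ℕ → ℕ → Bool) :
    (outArcs X (edgesOf N adj)).length = ((Finset.range N ×ˢ Finset.range N).filter
      (fun e => adj e.1 e.2 = true ∧ e.1 ∈ X ∧ e.2 ∉ X)).card := by
  rw [outArcs, ← List.toFinset_card_of_nodup ((nodup_edgesOf N adj).filter _)]
  congr 1
  ext ⟨u, v⟩
  simp only [List.mem_toFinset, List.mem_filter, mem_edgesOf, decide_eq_true_eq,
    Finset.mem_filter, Finset.mem_product, Finset.mem_range]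
  tauto

/-- red arcs of the blow-up -/
def redA (M : ℕ) (H R : ℕ → ℕ → Bool) (x y : ℕ) : Bool :=
  (decide (x / M = y / M) && decide (x ≠ y)) || (H (x / M) (y / M) && decide (x % M = y % M)) ||
    (R (x / M) (y / M) && (decide (x % M = 0) && decide (y % M = 0)))

/-- blue arcs of the blow-up -/
def blueA (M : ℕ) (B : ℕ → ℕ → Bool) (x y : ℕ) : Bool :=
  B (x / M) (y / M) && (decide (x % M = 0) && decide (y % M = 0))

/-- number of pairs in the relation that leave `Y` -/
def leave (m : ℕ) (R : ℕ → ℕ → Bool) (Y : Finset ℕ) : Finset (ℕ × ℕ) :=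
  (Finset.range m ×ˢ Finset.range m).filter fun e => R e.1 e.2 = true ∧ e.1 ∈ Y ∧ e.2 ∉ Y

theorem mem_leave {m R Y} {p q : ℕ} : (p, q) ∈ leave m R Y ↔
    (p < m ∧ q < m) ∧ R p q = true ∧ p ∈ Y ∧ q ∉ Y := by
  simp [leave]

theorem div_lt_of_lt_mul' {x m M : ℕ} (h : x < m * M) : x / M < m :=
  Nat.div_lt_of_lt_mul (by rwa [Nat.mul_comm] at h)

theorem mul_add_lt {p m M a : ℕ} (hp : p < m) (ha : a < M) : p * M + a < m * M := by
  have : (p + 1) * M ≤ m * M := Nat.mul_le_mul_right _ hp
  have h2 : (p + 1) * M = p * M + M := Nat.succ_mul p M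
  omega

theorem mul_add_div' {p M a : ℕ} (ha : a < M) : (p * M + a) / M = p := by
  rw [Nat.mul_comm, Nat.mul_add_div (by omega), Nat.div_eq_of_lt ha, Nat.add_zero]

theorem mul_add_mod' {p M a : ℕ} (ha : a < M) : (p * M + a) % M = a := by
  rw [Nat.mul_comm, Nat.mul_add_mod, Nat.mod_eq_of_lt ha]

theorem blow {m M r b : ℕ} (hM : r + 2 ≤ M) (H R B : ℕ → ℕ → Bool) :
    HasCut (m * M, edgesOf (m * M) (redA M H R), edgesOf (m * M) (blueA M B), r, b) ↔
      ∃ Y : Finset ℕ, Y ⊆ Finset.range m ∧ Y ≠ ∅ ∧ Y ≠ Finset.range m ∧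
        (∀ p ∈ Y, ∀ q < m, H p q = true → q ∈ Y) ∧
        (leave m R Y).card ≤ r ∧ (leave m B Y).card ≤ b := by
  have hM0 : 0 < M := by omega
  constructor
  · rintro ⟨X, hX, hne, hne', hr, hb⟩
    dsimp only at hX hne' hr hb
    rw [len_out] at hr hb
    -- blocks are not split
    have h1 : ∀ x ∈ X, ∀ y < m * M, x / M = y / M → y ∈ X := by
      intro x hx y hy hxy
      by_contra hyX
      have hxN : x < m * M := Finset.mem_range.1 (hX hx)
      have hp : y / M < m := div_lt_of_lt_mul' hy
      set p := y / M with hpdef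
      have hle : (((Finset.range M).image (fun a => p * M + a)).erase y).card ≤
          ((Finset.range (m * M) ×ˢ Finset.range (m * M)).filter
            (fun e => redA M H R e.1 e.2 = true ∧ e.1 ∈ X ∧ e.2 ∉ X)).card := by
        refine Finset.card_le_card_of_injOn (fun z => if z ∈ X then (z, y) else (x, z)) ?_ ?_
        · intro z hz
          simp only [Finset.coe_erase, Finset.coe_image, Set.mem_diff, Set.mem_image,
            Finset.mem_coe, Finset.mem_range, Set.mem_singleton_iff] at hz
          obtain ⟨⟨a, ha, rfl⟩, hzy⟩ := hz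
          have hzN := mul_add_lt hp ha
          have hzd : (p * M + a) / M = p := mul_add_div' ha
          by_cases hzX : p * M + a ∈ X
          · simp only [hzX, if_true, Finset.coe_filter, Set.mem_setOf_eq, Finset.mem_product,
              Finset.mem_range]
            refine ⟨⟨hzN, hy⟩, ?_, trivial, hyX⟩
            simp [redA, hzd, ← hpdef, hzy]
          · simp only [hzX, if_false, Finset.coe_filter, Set.mem_setOf_eq, Finset.mem_product,
              Finset.mem_range]
            refine ⟨⟨hxN, hzN⟩, ?_, hx, not_false⟩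
            have : x ≠ p * M + a := fun h => hzX (h ▸ hx)
            simp [redA, hzd, hxy, this]
        · intro z hz w hw hzw
          simp only [Finset.coe_erase, Finset.coe_image, Set.mem_diff, Set.mem_image,
            Finset.mem_coe, Finset.mem_range, Set.mem_singleton_iff] at hz hw
          by_cases hzX : z ∈ X <;> by_cases hwX : w ∈ X <;>
            simp only [hzX, hwX, if_true, if_false, Prod.mk.injEq] at hzw
          · exact hzw.1
          · exact absurd hzw.2.symm hw.2
          · exact absurd hzw.2 hz.2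
          · exact hzw.2
      have hc : (((Finset.range M).image (fun a => p * M + a)).erase y).card = M - 1 := by
        rw [Finset.card_erase_of_mem, Finset.card_image_of_injective, Finset.card_range]
        · exact fun a c h => Nat.add_left_cancel h
        · refine Finset.mem_image.2 ⟨y % M, Finset.mem_range.2 (Nat.mod_lt _ hM0), ?_⟩
          rw [hpdef, Nat.mul_comm]
          exact Nat.div_add_mod y M
      omega
    -- implications
    have h2 : ∀ x ∈ X, ∀ q < m, H (x / M) q = true → q * M ∈ X := by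
      intro x hx q hq hH
      by_contra hqX
      have hxN : x < m * M := Finset.mem_range.1 (hX hx)
      have hp : x / M < m := div_lt_of_lt_mul' hxN
      set p := x / M with hpdef
      have hle : ((Finset.range M)).card ≤
          ((Finset.range (m * M) ×ˢ Finset.range (m * M)).filter
            (fun e => redA M H R e.1 e.2 = true ∧ e.1 ∈ X ∧ e.2 ∉ X)).card := by
        refine Finset.card_le_card_of_injOn (fun a => (p * M + a, q * M + a)) ?_ ?_
        · intro a ha
          have ha : a < M := by simpa using ha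
          simp only [Finset.coe_filter, Set.mem_setOf_eq, Finset.mem_product, Finset.mem_range]
          refine ⟨⟨mul_add_lt hp ha, mul_add_lt hq ha⟩, ?_, ?_, ?_⟩
          · simp [redA, mul_add_div' ha, mul_add_mod' ha, hH]
          · exact h1 x hx _ (mul_add_lt hp ha) (by rw [mul_add_div' ha])
          · intro h
            refine hqX (h1 _ h _ ?_ ?_)
            · have := mul_add_lt (a := 0) hq hM0
              simpa using this
            · rw [mul_add_div' ha, Nat.mul_div_cancel _ hM0]
        · intro a _ c _ h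
          exact Nat.add_left_cancel (Prod.mk.inj h).1
      rw [Finset.card_range] at hle
      omega
    have hmul : ∀ {p : ℕ}, p < m → p * M < m * M := fun hp => Nat.mul_lt_mul_of_pos_right hp hM0
    have h3 : ∀ x < m * M, (x ∈ X ↔ x / M * M ∈ X) := by
      intro x hx
      have hd : x / M * M / M = x / M := Nat.mul_div_cancel _ hM0
      exact ⟨fun h => h1 x h _ (hmul (div_lt_of_lt_mul' hx)) hd.symm, fun h => h1 _ h x hx hd⟩
    refine ⟨(Finset.range m).filter (fun p => p * M ∈ X), Finset.filter_subset _ _, ?_, ?_, ?_, ?_,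
      ?_⟩
    · obtain ⟨x, hx⟩ := Finset.nonempty_iff_ne_empty.2 hne
      have hxN : x < m * M := Finset.mem_range.1 (hX hx)
      refine Finset.nonempty_iff_ne_empty.1 ⟨x / M, ?_⟩
      simp only [Finset.mem_filter, Finset.mem_range]
      exact ⟨div_lt_of_lt_mul' hxN, (h3 x hxN).1 hx⟩
    · intro h
      refine hne' (Finset.Subset.antisymm hX fun x hx => ?_)
      have hxN : x < m * M := Finset.mem_range.1 hx
      have : x / M ∈ (Finset.range m).filter (fun p => p * M ∈ X) := by
        rw [h]; exact Finset.mem_range.2 (div_lt_of_lt_mul' hxN)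
      exact (h3 x hxN).2 (Finset.mem_filter.1 this).2
    · intro p hp q hq hH
      simp only [Finset.mem_filter, Finset.mem_range] at hp ⊢
      exact ⟨hq, h2 _ hp.2 q hq (by rwa [Nat.mul_div_cancel _ hM0])⟩
    · refine le_trans (Finset.card_le_card_of_injOn (fun e => (e.1 * M, e.2 * M)) ?_ ?_) hr
      · rintro ⟨p, q⟩ he
        have he := mem_leave.1 (Finset.mem_coe.1 he)
        obtain ⟨⟨hp, hq⟩, hR, hpY, hqY⟩ := he
        simp only [Finset.mem_filter, Finset.mem_range] at hpY hqY
        simp only [Finset.coe_filter, Set.mem_setOf_eq, Finset.mem_product, Finset.mem_range]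
        refine ⟨⟨hmul hp, hmul hq⟩, ?_, hpY.2, fun h => hqY ⟨hq, h⟩⟩
        simp [redA, Nat.mul_div_cancel _ hM0, hR]
      · rintro ⟨p, q⟩ _ ⟨p', q'⟩ _ h
        simp only [Prod.mk.injEq] at h ⊢
        exact ⟨Nat.eq_of_mul_eq_mul_right hM0 h.1, Nat.eq_of_mul_eq_mul_right hM0 h.2⟩
    · refine le_trans (Finset.card_le_card_of_injOn (fun e => (e.1 * M, e.2 * M)) ?_ ?_) hb
      · rintro ⟨p, q⟩ he
        have he := mem_leave.1 (Finset.mem_coe.1 he)
        obtain ⟨⟨hp, hq⟩, hR, hpY, hqY⟩ := he
        simp only [Finset.mem_filter, Finset.mem_range] at hpY hqY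
        simp only [Finset.coe_filter, Set.mem_setOf_eq, Finset.mem_product, Finset.mem_range]
        refine ⟨⟨hmul hp, hmul hq⟩, ?_, hpY.2, fun h => hqY ⟨hq, h⟩⟩
        simp [blueA, Nat.mul_div_cancel _ hM0, hR]
      · rintro ⟨p, q⟩ _ ⟨p', q'⟩ _ h
        simp only [Prod.mk.injEq] at h ⊢
        exact ⟨Nat.eq_of_mul_eq_mul_right hM0 h.1, Nat.eq_of_mul_eq_mul_right hM0 h.2⟩
  · rintro ⟨Y, hY, hne, hne', hcl, hr, hb⟩
    have hmul : ∀ {p : ℕ}, p < m → p * M < m * M := fun hp => Nat.mul_lt_mul_of_pos_right hp hM0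
    refine ⟨(Finset.range (m * M)).filter (fun x => x / M ∈ Y), Finset.filter_subset _ _, ?_, ?_,
      ?_, ?_⟩
    · obtain ⟨p, hp⟩ := Finset.nonempty_iff_ne_empty.2 hne
      refine Finset.nonempty_iff_ne_empty.1 ⟨p * M, ?_⟩
      simp only [Finset.mem_filter, Finset.mem_range]
      exact ⟨hmul (Finset.mem_range.1 (hY hp)), by rwa [Nat.mul_div_cancel _ hM0]⟩
    · intro h
      refine hne' (Finset.Subset.antisymm hY fun p hp => ?_)
      have hp' := Finset.mem_range.1 hp
      have : p * M ∈ (Finset.range (m * M)).filter (fun x => x / M ∈ Y) := by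
        rw [h]; exact Finset.mem_range.2 (hmul hp')
      have h2 := (Finset.mem_filter.1 this).2
      rwa [Nat.mul_div_cancel _ hM0] at h2
    · dsimp only
      rw [len_out]
      refine le_trans (Finset.card_le_card_of_injOn (fun e => (e.1 / M, e.2 / M)) ?_ ?_) hr
      · rintro ⟨x, y⟩ he
        simp only [Finset.coe_filter, Set.mem_setOf_eq, Finset.mem_product, Finset.mem_range,
          Finset.mem_filter] at he
        obtain ⟨⟨hx, hy⟩, hR, ⟨-, hxY⟩, hyY⟩ := he
        have hyY : y / M ∉ Y := fun h => hyY ⟨hy, h⟩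
        refine Finset.mem_coe.2 (mem_leave.2 ⟨⟨div_lt_of_lt_mul' hx, div_lt_of_lt_mul' hy⟩, ?_, hxY,
          hyY⟩)
        simp only [redA, Bool.or_eq_true, Bool.and_eq_true, decide_eq_true_eq] at hR
        rcases hR with (h | h) | h
        · exact absurd (h.1 ▸ hxY) hyY
        · exact absurd (hcl _ hxY _ (div_lt_of_lt_mul' hy) h.1) hyY
        · exact h.1
      · rintro ⟨x, y⟩ he ⟨x', y'⟩ he' h
        simp only [Finset.coe_filter, Set.mem_setOf_eq, Finset.mem_product, Finset.mem_range,
          Finset.mem_filter] at he he'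
        obtain ⟨⟨hx, hy⟩, hR, ⟨-, hxY⟩, hyY⟩ := he
        obtain ⟨⟨hx', hy'⟩, hR', ⟨-, hxY'⟩, hyY'⟩ := he'
        have hyY : y / M ∉ Y := fun h => hyY ⟨hy, h⟩
        have hyY' : y' / M ∉ Y := fun h => hyY' ⟨hy', h⟩
        simp only [redA, Bool.or_eq_true, Bool.and_eq_true, decide_eq_true_eq] at hR hR'
        have e1 : x % M = 0 ∧ y % M = 0 := by
          rcases hR with (h | h) | h
          · exact absurd (h.1 ▸ hxY) hyY
          · exact absurd (hcl _ hxY _ (div_lt_of_lt_mul' hy) h.1) hyY
          · exact h.2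
        have e2 : x' % M = 0 ∧ y' % M = 0 := by
          rcases hR' with (h | h) | h
          · exact absurd (h.1 ▸ hxY') hyY'
          · exact absurd (hcl _ hxY' _ (div_lt_of_lt_mul' hy') h.1) hyY'
          · exact h.2
        simp only [Prod.mk.injEq] at h ⊢
        rw [← Nat.div_add_mod x M, ← Nat.div_add_mod y M, ← Nat.div_add_mod x' M,
          ← Nat.div_add_mod y' M, h.1, h.2, e1.1, e1.2, e2.1, e2.2]
        exact ⟨rfl, rfl⟩
    · dsimp only
      rw [len_out]
      refine le_trans (Finset.card_le_card_of_injOn (fun e => (e.1 / M, e.2 / M)) ?_ ?_) hb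
      · rintro ⟨x, y⟩ he
        simp only [Finset.coe_filter, Set.mem_setOf_eq, Finset.mem_product, Finset.mem_range,
          Finset.mem_filter] at he
        obtain ⟨⟨hx, hy⟩, hR, ⟨-, hxY⟩, hyY⟩ := he
        have hyY : y / M ∉ Y := fun h => hyY ⟨hy, h⟩
        refine Finset.mem_coe.2 (mem_leave.2 ⟨⟨div_lt_of_lt_mul' hx, div_lt_of_lt_mul' hy⟩, ?_, hxY,
          hyY⟩)
        simp only [blueA, Bool.and_eq_true, decide_eq_true_eq] at hR
        exact hR.1
      · rintro ⟨x, y⟩ he ⟨x', y'⟩ he' h
        simp only [Finset.coe_filter, Set.mem_setOf_eq, Finset.mem_product, Finset.mem_range,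
          Finset.mem_filter] at he he'
        have e1 := he.2.1
        have e2 := he'.2.1
        simp only [blueA, Bool.and_eq_true, decide_eq_true_eq] at e1 e2
        simp only [Prod.mk.injEq] at h ⊢
        rw [← Nat.div_add_mod x M, ← Nat.div_add_mod y M, ← Nat.div_add_mod x' M,
          ← Nat.div_add_mod y' M, h.1, h.2, e1.2.1, e1.2.2, e2.2.1, e2.2.2]
        exact ⟨rfl, rfl⟩

end Pool.Agent.Run7.h878.RB
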