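import Pool.Agent.H38.NP.Graphs

/-!
The directed red-blue cut problem.
-/

namespace Pool.Agent.Run7.h878.RB

open Pool.Agent.H38.NP

/-- An instance of the directed red-blue cut problem: the number `n` of vertices (the vertices are
`0, ..., n - 1`), the list of the red arcs and the list of the blue arcs (an arc is the pair of its
tail and its head; a repetition in a list is a parallel arc), and the bounds `r` and `b`. -/
abbrev Inst := ℕ × List (ℕ × ℕ) × List (ℕ × ℕ) × ℕ × ℕ

/-- The ends of all arcs are vertices. Loops and parallel arcs are allowed. -/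
def IsDigraph (I : Inst) : Prop := ∀ e ∈ I.2.1 ++ I.2.2.1, e.1 < I.1 ∧ e.2 < I.1

/-- The instance is a simple digraph: the ends of all arcs are vertices, there are no loops, and no
two arcs (of the same or of different colours) have the same tail and the same head. -/
def IsSimple (I : Inst) : Prop :=
  (∀ e ∈ I.2.1 ++ I.2.2.1, e.1 < I.1 ∧ e.2 < I.1 ∧ e.1 ≠ e.2) ∧ (I.2.1 ++ I.2.2.1).Nodup

/-- The arcs of the list `A` that leave `X`, with multiplicity. -/
def outArcs (X : Finset ℕ) (A : List (ℕ × ℕ)) : List (ℕ × ℕ) :=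
  A.filter fun e => decide (e.1 ∈ X ∧ e.2 ∉ X)

/-- There is a nonempty proper subset `X` of the vertex set such that at most `r` red arcs and at
most `b` blue arcs leave `X`. -/
def HasCut (I : Inst) : Prop :=
  ∃ X : Finset ℕ, X ⊆ Finset.range I.1 ∧ X ≠ ∅ ∧ X ≠ Finset.range I.1 ∧
    (outArcs X I.2.1).length ≤ I.2.2.2.1 ∧ (outArcs X I.2.2.1).length ≤ I.2.2.2.2

end Pool.Agent.Run7.h878.RB
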