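import Pool.Agent.Run7.h878.RB.Blow

/-!
NP-hardness of the directed red-blue cut problem on simple digraphs, by a reduction from
independent set.
-/

namespace Pool.Agent.Run7.h878.RB

open Pool.Agent.H38.NP

/-- the pair `(u, v)` may lie in the square of an independent set -/
def okP (E : List (ℕ × ℕ)) (u v : ℕ) : Bool := decide (u = v) || !(decide ((u, v) ∈ E))

/-- `q` names a pair that may lie in the square of an independent set -/
def inQ (n : ℕ) (E : List (ℕ × ℕ)) (q : ℕ) : Bool :=
  (decide (1 ≤ q / (n + 2)) && decide (q / (n + 2) ≤ n)) &&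
  ((decide (1 ≤ q % (n + 2)) && decide (q % (n + 2) ≤ n)) &&
    okP E (q / (n + 2) - 1) (q % (n + 2) - 1))

/-- forced implications: `0` is the source, `1` the sink, `(u + 1) * (n + 2)` names the vertex `u`
and `(u + 1) * (n + 2) + (v + 1)` names the pair `(u, v)` -/
def hv (n p q : ℕ) : Bool :=
  (decide (q = 0) && decide (p ≠ 0)) || ((decide (p = 1) && decide (q ≠ 1)) ||
  ((decide (1 ≤ p / (n + 2)) && decide (1 ≤ p % (n + 2))) &&
  ((decide (q % (n + 2) = 0) && decide (1 ≤ q / (n + 2))) &&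
  (decide (q / (n + 2) = p / (n + 2)) || decide (q / (n + 2) = p % (n + 2))))))

/-- red relation -/
def rd (n : ℕ) (E : List (ℕ × ℕ)) (p q : ℕ) : Bool := decide (p = 0) && inQ n E q

/-- blue relation -/
def bl (n p q : ℕ) : Bool :=
  decide (q = 1) && (decide (p % (n + 2) = 0) &&
    (decide (1 ≤ p / (n + 2)) && decide (p / (n + 2) ≤ n)))

/-- number of names of pairs -/
def qc (n : ℕ) (E : List (ℕ × ℕ)) : ℕ := (List.range ((n + 2) * (n + 2))).countP fun q => inQ n E q

theorem qc_eq (n : ℕ) (E : List (ℕ × ℕ)) :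
    qc n E = ((Finset.range ((n + 2) * (n + 2))).filter fun q => inQ n E q = true).card := by
  rw [qc, List.countP_eq_length_filter, ← List.toFinset_card_of_nodup (List.nodup_range.filter _)]
  congr 1
  ext q
  simp

theorem inQ_iff {n E q} : inQ n E q = true ↔ (1 ≤ q / (n + 2) ∧ q / (n + 2) ≤ n) ∧
    (1 ≤ q % (n + 2) ∧ q % (n + 2) ≤ n) ∧
    (q / (n + 2) - 1 = q % (n + 2) - 1 ∨ (q / (n + 2) - 1, q % (n + 2) - 1) ∉ E) := by
  simp [inQ, okP]

theorem hv_iff {n p q} : hv n p q = true ↔ (q = 0 ∧ p ≠ 0) ∨ (p = 1 ∧ q ≠ 1) ∨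
    ((1 ≤ p / (n + 2) ∧ 1 ≤ p % (n + 2)) ∧ (q % (n + 2) = 0 ∧ 1 ≤ q / (n + 2)) ∧
      (q / (n + 2) = p / (n + 2) ∨ q / (n + 2) = p % (n + 2))) := by
  simp [hv]

theorem bl_iff {n p q} : bl n p q = true ↔ q = 1 ∧ p % (n + 2) = 0 ∧
    1 ≤ p / (n + 2) ∧ p / (n + 2) ≤ n := by
  simp [bl]

theorem node {n k : ℕ} (E : List (ℕ × ℕ)) (hn : n = 3 * k) :
    (∃ Y : Finset ℕ, Y ⊆ Finset.range ((n + 2) * (n + 2)) ∧ Y ≠ ∅ ∧
        Y ≠ Finset.range ((n + 2) * (n + 2)) ∧
        (∀ p ∈ Y, ∀ q < (n + 2) * (n + 2), hv n p q = true → q ∈ Y) ∧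
        (leave ((n + 2) * (n + 2)) (rd n E) Y).card ≤ qc n E - k * k ∧
        (leave ((n + 2) * (n + 2)) (bl n) Y).card ≤ k) ↔
      ∃ S, IndepN n E S ∧ S.card = k := by
  set K := n + 2 with hK
  have hK0 : 0 < K := by omega
  have hdiv : ∀ {u a : ℕ}, a < K → (u * K + a) / K = u := fun ha => mul_add_div' ha
  have hmod : ∀ {u a : ℕ}, a < K → (u * K + a) % K = a := fun ha => mul_add_mod' ha
  have h1K : (1 : ℕ) / K = 0 := Nat.div_eq_of_lt (by omega)
  constructor
  · rintro ⟨Y, hY, hne, hne', hcl, hr, hb⟩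
    have h0 : 0 ∈ Y := by
      obtain ⟨p, hp⟩ := Finset.nonempty_iff_ne_empty.2 hne
      by_cases h : p = 0
      · exact h ▸ hp
      · exact hcl p hp 0 (Nat.mul_pos hK0 hK0) (hv_iff.2 (Or.inl ⟨rfl, h⟩))
    have h1 : 1 ∉ Y := by
      intro h
      refine hne' (Finset.Subset.antisymm hY fun q hq => ?_)
      by_cases h' : q = 1
      · exact h' ▸ h
      · exact hcl 1 h q (Finset.mem_range.1 hq) (hv_iff.2 (Or.inr (Or.inl ⟨rfl, h'⟩)))
    let S : Finset ℕ := (Finset.range n).filter fun u => (u + 1) * K ∈ Y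
    have hSmem : ∀ u, u ∈ S ↔ u < n ∧ (u + 1) * K ∈ Y := fun u => by simp [S]
    have hScard : S.card ≤ k := by
      refine le_trans (Finset.card_le_card_of_injOn (fun u => ((u + 1) * K, 1)) ?_ ?_) hb
      · intro u hu
        have hu := (hSmem u).1 (Finset.mem_coe.1 hu)
        refine Finset.mem_coe.2 (mem_leave.2 ⟨⟨Finset.mem_range.1 (hY hu.2), ?_⟩, ?_, hu.2, h1⟩)
        · calc 1 < K := by omega
            _ ≤ K * K := Nat.le_mul_self K
        · refine bl_iff.2 ⟨rfl, ?_, ?_, ?_⟩
          · rw [← hK, Nat.mul_mod_left]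
          · rw [← hK, Nat.mul_div_cancel _ hK0]; omega
          · rw [← hK, Nat.mul_div_cancel _ hK0]; omega
      · intro u _ v _ h
        have := Nat.eq_of_mul_eq_mul_right hK0 (Prod.mk.inj h).1
        omega
    let Q := (Finset.range (K * K)).filter fun q => inQ n E q = true
    have hQ : Q.card = qc n E := (qc_eq n E).symm
    let QX := Q.filter fun q => q ∈ Y
    let QN := Q.filter fun q => q ∉ Y
    have hsplit : QX.card + QN.card = Q.card := Finset.card_filter_add_card_filter_not _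
    have hQN : QN.card ≤ qc n E - k * k := by
      refine le_trans (Finset.card_le_card_of_injOn (fun q => (0, q)) ?_ ?_) hr
      · intro q hq
        have hq := Finset.mem_coe.1 hq
        simp only [QN, Q, Finset.mem_filter, Finset.mem_range] at hq
        refine Finset.mem_coe.2 (mem_leave.2 ⟨⟨Nat.mul_pos hK0 hK0, hq.1.1⟩, ?_, h0, hq.2⟩)
        simp [rd, hq.1.2]
      · intro u _ v _ h
        exact (Prod.mk.inj h).2
    have hmap : Set.MapsTo (fun q => (q / K - 1, q % K - 1)) (QX : Set ℕ) (S ×ˢ S : Finset _) := by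
      intro q hq
      have hq := Finset.mem_coe.1 hq
      simp only [QX, Q, Finset.mem_filter, Finset.mem_range] at hq
      obtain ⟨⟨hqK, hqQ⟩, hqY⟩ := hq
      obtain ⟨⟨a1, a2⟩, ⟨a3, a4⟩, -⟩ := inQ_iff.1 hqQ
      rw [← hK] at a1 a2 a3 a4
      refine Finset.mem_coe.2 (Finset.mem_product.2 ⟨(hSmem _).2 ⟨by dsimp only; omega, ?_⟩,
        (hSmem _).2 ⟨by dsimp only; omega, ?_⟩⟩)
      · have e : q / K - 1 + 1 = q / K := by omega
        rw [e]
        refine hcl q hqY _ ?_ (hv_iff.2 (Or.inr (Or.inr ?_)))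
        · exact Nat.mul_lt_mul_of_pos_right (by omega) hK0
        · rw [← hK, Nat.mul_mod_left, Nat.mul_div_cancel _ hK0]
          exact ⟨⟨a1, a3⟩, ⟨rfl, a1⟩, Or.inl rfl⟩
      · have e : q % K - 1 + 1 = q % K := by omega
        dsimp only
        rw [e]
        refine hcl q hqY _ ?_ (hv_iff.2 (Or.inr (Or.inr ?_)))
        · exact Nat.mul_lt_mul_of_pos_right (by omega) hK0
        · rw [← hK, Nat.mul_mod_left, Nat.mul_div_cancel _ hK0]
          exact ⟨⟨a1, a3⟩, ⟨rfl, a3⟩, Or.inr rfl⟩
    have hinj : Set.InjOn (fun q => (q / K - 1, q % K - 1)) (QX : Set ℕ) := by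
      intro q hq q' hq' h
      have hq := Finset.mem_coe.1 hq
      have hq' := Finset.mem_coe.1 hq'
      simp only [QX, Q, Finset.mem_filter, Finset.mem_range] at hq hq'
      obtain ⟨⟨a1, a2⟩, ⟨a3, a4⟩, -⟩ := inQ_iff.1 hq.1.2
      obtain ⟨⟨b1, b2⟩, ⟨b3, b4⟩, -⟩ := inQ_iff.1 hq'.1.2
      rw [← hK] at a1 a2 a3 a4 b1 b2 b3 b4
      have h := Prod.mk.inj h
      rw [← Nat.div_add_mod q K, ← Nat.div_add_mod q' K,
        show q / K = q' / K by omega, show q % K = q' % K by omega]
    have hQXS : QX.card ≤ S.card * S.card := by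
      rw [← Finset.card_product]
      exact Finset.card_le_card_of_injOn _ hmap hinj
    by_cases hk : k * k ≤ qc n E
    · have hge : k * k ≤ QX.card := by omega
      have hSk : S.card = k := by
        refine le_antisymm hScard ?_
        by_contra hlt
        push Not at hlt
        have := Nat.mul_lt_mul'' hlt hlt
        omega
      refine ⟨S, ⟨fun v hv => ((hSmem v).1 hv).1, fun u hu v hv huv hE => ?_⟩, hSk⟩
      have hsurj : QX.image (fun q => (q / K - 1, q % K - 1)) = S ×ˢ S := by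
        refine Finset.eq_of_subset_of_card_le ?_ ?_
        · intro e he
          obtain ⟨q, hq, rfl⟩ := Finset.mem_image.1 he
          exact Finset.mem_coe.1 (hmap (Finset.mem_coe.2 hq))
        · rw [Finset.card_image_of_injOn hinj, Finset.card_product, hSk]
          exact hge
      have : (u, v) ∈ QX.image (fun q => (q / K - 1, q % K - 1)) := by
        rw [hsurj]; exact Finset.mem_product.2 ⟨hu, hv⟩
      obtain ⟨q, hq, e⟩ := Finset.mem_image.1 this
      simp only [QX, Q, Finset.mem_filter, Finset.mem_range] at hq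
      obtain ⟨-, -, h⟩ := inQ_iff.1 hq.1.2
      rw [← hK] at h
      simp only [Prod.mk.injEq] at e
      rw [e.1, e.2] at h
      rcases h with h | h
      · exact huv h
      · exact h hE
    · exfalso
      push Not at hk
      have hQN0 : QN.card = 0 := by omega
      have hk0 : 0 < k := by
        by_contra h
        have : k = 0 := by omega
        subst this
        simp at hk
      have hall : Finset.range n ⊆ S := by
        intro u hu
        have hu := Finset.mem_range.1 hu
        have hq : (u + 1) * K + (u + 1) ∈ QX := by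
          have h1 : (u + 1) * K + (u + 1) ∈ Q := by
            simp only [Q, Finset.mem_filter, Finset.mem_range]
            refine ⟨mul_add_lt (by omega) (by omega), inQ_iff.2 ?_⟩
            rw [← hK, hdiv (by omega), hmod (by omega)]
            exact ⟨⟨by omega, by omega⟩, ⟨by omega, by omega⟩, Or.inl rfl⟩
          by_contra hc
          have : (u + 1) * K + (u + 1) ∈ QN := by
            refine Finset.mem_filter.2 ⟨h1, fun h => hc (Finset.mem_filter.2 ⟨h1, h⟩)⟩
          rw [Finset.card_eq_zero.1 hQN0] at this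
          simp at this
        have := Finset.mem_coe.1 (hmap (Finset.mem_coe.2 hq))
        simp only [hdiv (show u + 1 < K by omega)] at this
        exact (Finset.mem_product.1 this).1
      have := Finset.card_le_card hall
      rw [Finset.card_range] at this
      omega
  · rintro ⟨S, ⟨hS1, hS2⟩, hSk⟩
    let P : ℕ → Prop := fun q => q = 0 ∨ (q % K = 0 ∧ 1 ≤ q / K ∧ q / K - 1 ∈ S) ∨
      (1 ≤ q % K ∧ 1 ≤ q / K ∧ q / K - 1 ∈ S ∧ q % K - 1 ∈ S)
    have hP1 : ¬ P 1 := by
      rintro (h | ⟨-, h, -⟩ | ⟨-, h, -⟩)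
      · omega
      · omega
      · omega
    classical
    refine ⟨(Finset.range (K * K)).filter P, Finset.filter_subset _ _, ?_, ?_, ?_, ?_, ?_⟩
    · refine Finset.nonempty_iff_ne_empty.1 ⟨0, ?_⟩
      simp only [Finset.mem_filter, Finset.mem_range]
      exact ⟨Nat.mul_pos hK0 hK0, Or.inl rfl⟩
    · intro h
      have : 1 ∈ (Finset.range (K * K)).filter P := by
        rw [h, Finset.mem_range]
        calc 1 < K := by omega
            _ ≤ K * K := Nat.le_mul_self K
      exact hP1 (Finset.mem_filter.1 this).2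
    · intro p hp q hq hpq
      simp only [Finset.mem_filter, Finset.mem_range] at hp ⊢
      refine ⟨hq, ?_⟩
      rcases hv_iff.1 hpq with ⟨h, -⟩ | ⟨h, -⟩ | ⟨⟨a1, a2⟩, ⟨a3, a4⟩, a5⟩
      · exact Or.inl h
      · exact absurd (h ▸ hp.2) hP1
      · rw [← hK] at a1 a2 a3 a4 a5
        refine Or.inr (Or.inl ⟨a3, a4, ?_⟩)
        rcases hp.2 with h | ⟨h, -⟩ | ⟨-, -, h1, h2⟩
        · subst h
          simp at a1
        · omega
        · rcases a5 with h | h
          · rw [h]; exact h1
          · rw [h]; exact h2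
    · -- the red arcs
      let Q := (Finset.range (K * K)).filter fun q => inQ n E q = true
      have hQ : Q.card = qc n E := (qc_eq n E).symm
      let QX := Q.filter fun q => P q
      let QN := Q.filter fun q => ¬ P q
      have hsplit : QX.card + QN.card = Q.card := Finset.card_filter_add_card_filter_not _
      have hQX : k * k ≤ QX.card := by
        rw [← hSk, ← Finset.card_product]
        refine Finset.card_le_card_of_injOn (fun e => (e.1 + 1) * K + (e.2 + 1)) ?_ ?_
        · rintro ⟨u, v⟩ he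
          obtain ⟨hu, hv⟩ := Finset.mem_product.1 (Finset.mem_coe.1 he)
          have hu' := hS1 u hu
          have hv' := hS1 v hv
          dsimp only
          have e1 : ((u + 1) * K + (v + 1)) / K = u + 1 := hdiv (by omega)
          have e2 : ((u + 1) * K + (v + 1)) % K = v + 1 := hmod (by omega)
          refine Finset.mem_coe.2 (Finset.mem_filter.2 ⟨Finset.mem_filter.2
            ⟨Finset.mem_range.2 (mul_add_lt (by omega) (by omega)), inQ_iff.2 ?_⟩,
            Or.inr (Or.inr ?_)⟩)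
          · rw [← hK, e1, e2]
            refine ⟨⟨by omega, by omega⟩, ⟨by omega, by omega⟩, ?_⟩
            by_cases h : u = v
            · exact Or.inl (by omega)
            · exact Or.inr (hS2 u hu v hv h)
          · rw [e1, e2]
            exact ⟨by omega, by omega, hu, hv⟩
        · rintro ⟨u, v⟩ he ⟨u', v'⟩ he' h
          obtain ⟨hu, hv⟩ := Finset.mem_product.1 (Finset.mem_coe.1 he)
          obtain ⟨hu', hv'⟩ := Finset.mem_product.1 (Finset.mem_coe.1 he')
          have b1 := hS1 v hv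
          have b2 := hS1 v' hv'
          dsimp only at h
          have e1 : ((u + 1) * K + (v + 1)) / K = u + 1 := hdiv (by omega)
          have e2 : ((u + 1) * K + (v + 1)) % K = v + 1 := hmod (by omega)
          have e3 : ((u' + 1) * K + (v' + 1)) / K = u' + 1 := hdiv (by omega)
          have e4 : ((u' + 1) * K + (v' + 1)) % K = v' + 1 := hmod (by omega)
          rw [h] at e1 e2
          simp only [Prod.mk.injEq]
          omega
      have hle : (leave (K * K) (rd n E) ((Finset.range (K * K)).filter P)).card ≤ QN.card := by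
        refine Finset.card_le_card_of_injOn (fun e => e.2) ?_ ?_
        · rintro ⟨p, q⟩ he
          obtain ⟨⟨hp, hq⟩, hR, hpY, hqY⟩ := mem_leave.1 (Finset.mem_coe.1 he)
          simp only [rd, Bool.and_eq_true, decide_eq_true_eq] at hR
          refine Finset.mem_coe.2 (Finset.mem_filter.2 ⟨Finset.mem_filter.2
            ⟨Finset.mem_range.2 hq, hR.2⟩, fun h => hqY (Finset.mem_filter.2
            ⟨Finset.mem_range.2 hq, h⟩)⟩)
        · rintro ⟨p, q⟩ he ⟨p', q'⟩ he' h
          obtain ⟨-, hR, -⟩ := mem_leave.1 (Finset.mem_coe.1 he)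
          obtain ⟨-, hR', -⟩ := mem_leave.1 (Finset.mem_coe.1 he')
          simp only [rd, Bool.and_eq_true, decide_eq_true_eq] at hR hR'
          simp only [Prod.mk.injEq]
          exact ⟨by omega, h⟩
      omega
    · -- the blue arcs
      rw [← hSk]
      refine Finset.card_le_card_of_injOn (fun e => e.1 / K - 1) ?_ ?_
      · rintro ⟨p, q⟩ he
        obtain ⟨⟨hp, hq⟩, hR, hpY, hqY⟩ := mem_leave.1 (Finset.mem_coe.1 he)
        obtain ⟨a1, a2, a3, a4⟩ := bl_iff.1 hR
        rw [← hK] at a2 a3 a4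
        refine Finset.mem_coe.2 ?_
        rcases (Finset.mem_filter.1 hpY).2 with h | ⟨-, -, h⟩ | ⟨h, -⟩
        · subst h; simp at a3
        · exact h
        · omega
      · rintro ⟨p, q⟩ he ⟨p', q'⟩ he' h
        obtain ⟨-, hR, -⟩ := mem_leave.1 (Finset.mem_coe.1 he)
        obtain ⟨-, hR', -⟩ := mem_leave.1 (Finset.mem_coe.1 he')
        obtain ⟨a1, a2, a3, a4⟩ := bl_iff.1 hR
        obtain ⟨b1, b2, b3, b4⟩ := bl_iff.1 hR'
        rw [← hK] at a2 a3 a4 b2 b3 b4
        dsimp only at h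
        simp only [Prod.mk.injEq]
        refine ⟨?_, by omega⟩
        rw [← Nat.div_add_mod p K, ← Nat.div_add_mod p' K, a2, b2,
          show p / K = p' / K by omega]

/-- the reduction -/
def red (p : ℕ × List (ℕ × ℕ) × ℕ) : Inst :=
  ((p.1 + 2) * (p.1 + 2) * (qc p.1 p.2.1 - p.2.2 * p.2.2 + 2),
    edgesOf ((p.1 + 2) * (p.1 + 2) * (qc p.1 p.2.1 - p.2.2 * p.2.2 + 2))
      (redA (qc p.1 p.2.1 - p.2.2 * p.2.2 + 2) (hv p.1) (rd p.1 p.2.1)),
    edgesOf ((p.1 + 2) * (p.1 + 2) * (qc p.1 p.2.1 - p.2.2 * p.2.2 + 2))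
      (blueA (qc p.1 p.2.1 - p.2.2 * p.2.2 + 2) (bl p.1)),
    qc p.1 p.2.1 - p.2.2 * p.2.2, p.2.2)

theorem pt_qc {α : Type} [Enc α] {n : α → ℕ} {E : α → List (ℕ × ℕ)} (hn : PT n) (hE : PT E) :
    PT fun a => qc (n a) (E a) := by
  unfold qc inQ okP
  fun_prop

theorem pt_red : PT red := by
  unfold red
  have h : PT fun p : ℕ × List (ℕ × ℕ) × ℕ => qc p.1 p.2.1 - p.2.2 * p.2.2 :=
    PT.sub (pt_qc (by fun_prop) (by fun_prop)) (by fun_prop)
  have hM : PT fun p : ℕ × List (ℕ × ℕ) × ℕ => qc p.1 p.2.1 - p.2.2 * p.2.2 + 2 :=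
    h.add (PT.const 2)
  have hN : PT fun p : ℕ × List (ℕ × ℕ) × ℕ =>
      (p.1 + 2) * (p.1 + 2) * (qc p.1 p.2.1 - p.2.2 * p.2.2 + 2) :=
    PT.mul (by fun_prop) hM
  have hM' : PT fun p : (ℕ × List (ℕ × ℕ) × ℕ) × ℕ × ℕ =>
      qc p.1.1 p.1.2.1 - p.1.2.2 * p.1.2.2 + 2 :=
    hM.comp (g := fun p : (ℕ × List (ℕ × ℕ) × ℕ) × ℕ × ℕ => p.1) (by fun_prop)
  refine PT.mk hN (PT.mk (PT.edgesOf hN ?_) (PT.mk (PT.edgesOf hN ?_) (PT.mk h (by fun_prop))))
  · unfold redA hv rd inQ okP
    fun_prop
  · unfold blueA bl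
    fun_prop

theorem simple_red (p : ℕ × List (ℕ × ℕ) × ℕ) : IsSimple (red p) := by
  obtain ⟨n, E, k⟩ := p
  set M := qc n E - k * k + 2 with hM
  have hM0 : 0 < M := by omega
  have h1 : (1 : ℕ) / (n + 2) = 0 := Nat.div_eq_of_lt (by omega)
  refine ⟨?_, ?_⟩
  · rintro ⟨x, y⟩ he
    simp only [red, List.mem_append, mem_edgesOf] at he
    rw [← hM] at he
    rcases he with ⟨hx, hy, h⟩ | ⟨hx, hy, h⟩
    · refine ⟨hx, hy, ?_⟩
      dsimp only
      rintro rfl
      simp only [redA, Bool.or_eq_true, Bool.and_eq_true, decide_eq_true_eq, ne_eq, not_true,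
        and_false, false_or, and_true] at h
      rcases h with h | h
      · rcases hv_iff.1 h with h | h | h
        · omega
        · omega
        · omega
      · simp only [rd, Bool.and_eq_true, decide_eq_true_eq] at h
        obtain ⟨⟨h2, -⟩, -⟩ := inQ_iff.1 h.1.2
        rw [h.1.1] at h2
        simp at h2
    · refine ⟨hx, hy, ?_⟩
      dsimp only
      rintro rfl
      simp only [blueA, Bool.and_eq_true, decide_eq_true_eq] at h
      obtain ⟨h2, -, h3, -⟩ := bl_iff.1 h.1
      rw [h2, h1] at h3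
      omega
  · refine List.Nodup.append (nodup_edgesOf _ _) (nodup_edgesOf _ _) ?_
    rintro ⟨x, y⟩ he he'
    replace he := mem_edgesOf.1 he
    replace he' := mem_edgesOf.1 he'
    dsimp only at he he'
    rw [← hM] at he he'
    have h := he.2.2
    have h' := he'.2.2
    simp only [blueA, Bool.and_eq_true, decide_eq_true_eq] at h'
    obtain ⟨c1, -⟩ := h'
    obtain ⟨b1, b2, b3, b4⟩ := bl_iff.1 c1
    simp only [redA, Bool.or_eq_true, Bool.and_eq_true, decide_eq_true_eq, ne_eq] at h
    rcases h with (h | h) | h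
    · rw [h.1, b1, h1] at b3
      omega
    · rcases hv_iff.1 h.1 with h | h | h
      · omega
      · rw [h.1, h1] at b3
        omega
      · rw [b1, h1] at h
        omega
    · simp only [rd, Bool.and_eq_true, decide_eq_true_eq] at h
      rw [h.1.1] at b3
      simp at b3

/-- The directed red-blue cut problem is NP-hard on simple digraphs. -/
theorem nph : NPH (fun I : Inst => IsSimple I) HasCut := by
  refine indep_nph.reduce red pt_red fun p hp => ⟨simple_red p, ?_⟩
  obtain ⟨n, E, k⟩ := p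
  rw [← node E hp.1]
  exact (blow (by simp only; omega) _ _ _).symm

end Pool.Agent.Run7.h878.RB
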